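import Pool.Agent.H143R3.BT.Stmts

/-! Auxiliary facts on Brownian motions: time reversal, scaling, uniqueness of the law. -/

set_option autoImplicit false

namespace Pool.Agent.H358R3.BT

open MeasureTheory ProbabilityTheory Filter Topology
open scoped ENNReal NNReal
open Pool.Agent.H143R3.BT

universe u v

variable {Ω : Type u} [MeasurableSpace Ω] {P : Measure Ω} {X : ℝ≥0 → Ω → ℝ}

lemma IsBM.pre (h : IsBM P X) : IsPreBrownianReal X P := by
  refine HasIndepIncrements.isPreBrownianReal_of_hasLaw (fun t => ?_) h.indep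
  refine ⟨(h.meas t).aemeasurable, ?_⟩
  have h1 := h.law 0 t (zero_le)
  rw [tsub_zero] at h1
  rw [← h1]
  refine Measure.map_congr ?_
  filter_upwards [h.zero] with ω h0
  rw [h0, sub_zero]

lemma IsBM.of_pre (h : IsPreBrownianReal X P) (hm : ∀ t, Measurable (X t))
    (hc : ∀ᵐ ω ∂P, Continuous fun t => X t ω) : IsBM P X where
  meas := hm
  zero := h.eval_zero_ae_eq_zero
  cont := hc
  indep := h.hasIndepIncrements
  law := by
    intro s t hst
    have h1 := (h.hasLaw_sub t s).map_eq
    have h2 : (fun ω => X t ω - X s ω) = X t - X s := rfl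
    rw [h2, h1]
    congr 1
    apply NNReal.eq
    have h3 : (s : ℝ) ≤ t := by exact_mod_cast hst
    rw [coe_nndist, NNReal.coe_sub hst, Real.dist_eq]
    exact abs_of_nonneg (sub_nonneg.2 h3)

/-- time reversal at `s` -/
noncomputable def rev (s : ℝ≥0) (x : ℝ≥0 → ℝ) (v : ℝ≥0) : ℝ := x (s - v) - x s + (x (max s v) - x s)

lemma IsBM.rev (h : IsBM P X) (s : ℝ≥0) : IsBM P (fun v ω => rev s (fun t => X t ω) v) := by
  have hp := IsBM.pre h
  have hprob := hp.isGaussianProcess.isProbabilityMeasure
  have hL2 : ∀ t, MemLp (fun ω => X t ω) 2 P :=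
    fun t => (hp.isGaussianProcess.hasGaussianLaw_eval t).memLp_two
  refine IsBM.of_pre ?_ ?_ ?_
  · refine IsGaussianProcess.isPreBrownianReal_of_covariance ?_ (fun t => ?_) (fun a b hab => ?_)
    · refine hp.isGaussianProcess.of_isGaussianProcess fun v => ?_
      exact ⟨{s - v, s, max s v},
        { toFun x := x ⟨s - v, by simp⟩ - x ⟨s, by simp⟩ + (x ⟨max s v, by simp⟩ - x ⟨s, by simp⟩)
          map_add' x y := by simp; abel
          map_smul' c x := by simp; ring }, by simp [BT.rev]⟩
    · have hi : ∀ t, Integrable (fun ω => X t ω) P := fun t => hp.integrable_eval t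
      have h0 : ∀ t, ∫ ω, X t ω ∂P = 0 := fun t => hp.integral_eval t
      have e : ∫ ω, BT.rev s (fun t => X t ω) t ∂P =
          ∫ ω, ((X (s - t) ω - X s ω) + (X (max s t) ω - X s ω)) ∂P := rfl
      rw [e, integral_add (f := fun ω => X (s - t) ω - X s ω)
        (g := fun ω => X (max s t) ω - X s ω) ((hi _).sub (hi _)) ((hi _).sub (hi _)),
        integral_sub (hi _) (hi _), integral_sub (hi _) (hi _), h0, h0, h0]
      ring
    · have e : ∀ a, (fun ω => BT.rev s (fun t => X t ω) a) =
          (fun ω => X (s - a) ω - X s ω) + (fun ω => X (max s a) ω - X s ω) :=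
        fun a => rfl
      rw [e, e]
      have m1 : ∀ a, MemLp (fun ω => X (s - a) ω - X s ω) 2 P := fun a => (hL2 _).sub (hL2 _)
      have m2 : ∀ a, MemLp (fun ω => X (max s a) ω - X s ω) 2 P := fun a => (hL2 _).sub (hL2 _)
      rw [covariance_add_left (m1 a) (m2 a) ((m1 b).add (m2 b)),
        covariance_add_right (m1 a) (m1 b) (m2 b),
        covariance_add_right (m2 a) (m1 b) (m2 b),
        covariance_fun_sub_fun_sub (hL2 _) (hL2 _) (hL2 _) (hL2 _),
        covariance_fun_sub_fun_sub (hL2 _) (hL2 _) (hL2 _) (hL2 _),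
        covariance_fun_sub_fun_sub (hL2 _) (hL2 _) (hL2 _) (hL2 _),
        covariance_fun_sub_fun_sub (hL2 _) (hL2 _) (hL2 _) (hL2 _)]
      simp only [hp.covariance_fun_eval]
      have hab' : s - b ≤ s - a := tsub_le_tsub_left hab s
      rw [min_eq_right hab', min_eq_left (tsub_le_self : s - a ≤ s),
        min_eq_right (tsub_le_self : s - b ≤ s), min_self,
        min_eq_left ((tsub_le_self : s - a ≤ s).trans (le_max_left s b)),
        min_eq_left (le_max_left s b),
        min_eq_right ((tsub_le_self : s - b ≤ s).trans (le_max_left s a)),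
        min_eq_right (le_max_left s a),
        min_eq_left (max_le_max_left s hab)]
      rcases le_total a s with h1 | h1
      · rw [max_eq_left h1]
        have : (((s - a : ℝ≥0)) : ℝ) = s - a := NNReal.coe_sub h1
        rw [this]
        ring
      · rw [max_eq_right h1, tsub_eq_zero_of_le h1]
        push_cast
        ring
  · intro v
    exact ((h.meas _).sub (h.meas _)).add ((h.meas _).sub (h.meas _))
  · filter_upwards [h.cont] with ω hω
    have c1 : Continuous fun v : ℝ≥0 => X (s - v) ω :=
      hω.comp (continuous_const.sub continuous_id)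
    have c2 : Continuous fun v : ℝ≥0 => X (max s v) ω :=
      hω.comp (continuous_const.max continuous_id)
    exact (c1.sub continuous_const).add (c2.sub continuous_const)

lemma IsBM.scale (h : IsBM P X) {c : ℝ≥0} (hc : c ≠ 0) :
    IsBM P (fun t ω => (√c)⁻¹ * X (c * t) ω) := by
  refine IsBM.of_pre ((IsBM.pre h).smul hc) (fun t => (h.meas _).const_mul _) ?_
  filter_upwards [h.cont] with ω hω
  exact continuous_const.mul (hω.comp (continuous_const.mul continuous_id))

/-- uniqueness of the law of a Brownian motion -/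
lemma law_unique {Ω' : Type v} [MeasurableSpace Ω'] {P' : Measure Ω'} {Y : ℝ≥0 → Ω' → ℝ}
    (hX : IsBM P X) (hY : IsBM P' Y) :
    P.map (fun ω t => X t ω) = P'.map (fun ω t => Y t ω) := by
  have mX : AEMeasurable (fun ω t => X t ω) P :=
    (measurable_pi_lambda _ fun t => hX.meas t).aemeasurable
  have mY : AEMeasurable (fun ω t => Y t ω) P' :=
    (measurable_pi_lambda _ fun t => hY.meas t).aemeasurable
  have h1 := isProjectiveLimit_map mX
  have h2 := isProjectiveLimit_map mY
  have e1 : ∀ I : Finset ℝ≥0, P.map (fun ω => I.restrict (X · ω)) =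
      P'.map (fun ω => I.restrict (Y · ω)) := by
    intro I
    rw [((IsBM.pre hX).hasLaw I).map_eq, ((IsBM.pre hY).hasLaw I).map_eq]
  simp_rw [e1] at h1
  have := (IsBM.pre hX).isGaussianProcess.isProbabilityMeasure
  have := (IsBM.pre hY).isGaussianProcess.isProbabilityMeasure
  exact h1.unique h2

end Pool.Agent.H358R3.BT
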