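import Pool.Agent.H358R3.BT.BMfacts

/-! Deterministic facts. -/

set_option autoImplicit false

namespace Pool.Agent.H358R3.BT

open MeasureTheory ProbabilityTheory Filter Topology
open scoped ENNReal NNReal
open Pool.Agent.H143R3.BT

universe u v

/-- the running supremum is a least upper bound -/
def HL : Prop := ∀ (t : ℝ≥0) (x : ℝ≥0 → ℝ), Continuous x → IsLUB (x '' Set.Iic t) (sp t x)

lemma tq_le (s : ℝ≥0) (p : ℕ × ℕ) : tq s p ≤ s := by
  unfold tq
  calc s * min ((p.1 : ℝ≥0) / (p.2 + 1)) 1 ≤ s * 1 := mul_le_mul_right (min_le_right _ _) s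
    _ = s := mul_one s

lemma le_sp (hL : HL) {t : ℝ≥0} {x : ℝ≥0 → ℝ} (hx : Continuous x) {v : ℝ≥0} (hv : v ≤ t) :
    x v ≤ sp t x := (hL t x hx).1 ⟨v, hv, rfl⟩

lemma sp_le (hL : HL) {t : ℝ≥0} {x : ℝ≥0 → ℝ} (hx : Continuous x) {c : ℝ}
    (h : ∀ v ≤ t, x v ≤ c) : sp t x ≤ c :=
  (hL t x hx).2 (by rintro _ ⟨v, hv, rfl⟩; exact h v hv)

lemma sp_le' {t : ℝ≥0} {x : ℝ≥0 → ℝ} {c : ℝ} (h : ∀ v ≤ t, x v ≤ c) : sp t x ≤ c :=
  ciSup_le fun p => h _ (tq_le t p)

lemma bdd (hL : HL) {t : ℝ≥0} {f w : ℝ≥0 → ℝ} {K : ℝ} (hK : ∀ u ≤ t, f u ≤ K)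
    (hw : Continuous w) : BddAbove (Set.range fun p : ℕ × ℕ => f (tq t p) + w (tq t p)) := by
  refine ⟨K + sp t w, ?_⟩
  rintro _ ⟨p, rfl⟩
  exact add_le_add (hK _ (tq_le t p)) (le_sp hL hw (tq_le t p))

lemma bdd0 (hL : HL) {t : ℝ≥0} {w : ℝ≥0 → ℝ}
    (hw : Continuous w) : BddAbove (Set.range fun p : ℕ × ℕ => w (tq t p)) := by
  refine ⟨sp t w, ?_⟩
  rintro _ ⟨p, rfl⟩
  exact le_sp hL hw (tq_le t p)

lemma path_mono (hL : HL) {t : ℝ≥0} {f g w : ℝ≥0 → ℝ} {K : ℝ} (hK : ∀ u ≤ t, g u ≤ K)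
    (hfg : ∀ u ≤ t, f u ≤ g u) (hw : Continuous w) :
    sp t (fun u => f u + w u) ≤ sp t (fun u => g u + w u) :=
  ciSup_mono (bdd hL hK hw) fun p => add_le_add_left (hfg _ (tq_le t p)) _

lemma path_add (hL : HL) {t : ℝ≥0} {f g w : ℝ≥0 → ℝ} {K R : ℝ} (hK : ∀ u ≤ t, f u ≤ K)
    (hfg : ∀ u ≤ t, g u ≤ f u + R) (hw : Continuous w) :
    sp t (fun u => g u + w u) ≤ sp t (fun u => f u + w u) + R := by
  refine ciSup_le fun p => ?_
  have h1 := le_ciSup (bdd hL hK hw) p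
  have h2 := hfg _ (tq_le t p)
  have h3 : f (tq t p) + w (tq t p) ≤ sp t (fun u => f u + w u) := h1
  show g (tq t p) + w (tq t p) ≤ _
  linarith

lemma path_low (hL : HL) {t : ℝ≥0} {f w : ℝ≥0 → ℝ} {K : ℝ} (hK : ∀ u ≤ t, f u ≤ K)
    (h0 : ∀ u ≤ t, 0 ≤ f u) (hw : Continuous w) :
    sp t w ≤ sp t (fun u => f u + w u) := by
  refine ciSup_mono (bdd hL hK hw) fun p => ?_
  have := h0 _ (tq_le t p)
  show w (tq t p) ≤ f (tq t p) + w (tq t p)
  linarith

lemma path_up (hL : HL) {t : ℝ≥0} {f w : ℝ≥0 → ℝ} {K : ℝ} (hK : ∀ u ≤ t, f u ≤ K)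
    (hw : Continuous w) :
    sp t (fun u => f u + w u) ≤ K + sp t w := by
  refine ciSup_le fun p => ?_
  exact add_le_add (hK _ (tq_le t p)) (le_sp hL hw (tq_le t p))

lemma path_key (hL : HL) {t s : ℝ≥0} {f g w : ℝ≥0 → ℝ} {m R : ℝ} (hst : s ≤ t)
    (hf0 : ∀ u ≤ t, 0 ≤ f u) (hfm : ∀ u ≤ t, f u ≤ m) (hgR : ∀ u ≤ t, g u ≤ f u + R)
    (hgs : ∀ u ≤ s, g u ≤ f u) (hw : Continuous w)
    (hlt : R + m + sp (t - s) (shf s w) < sp s (rev s w)) :
    sp t (fun u => g u + w u) ≤ sp t (fun u => f u + w u) := by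
  obtain ⟨p, hp⟩ := exists_lt_of_lt_ciSup hlt
  have hv : rev s w (tq s p) = w (s - tq s p) - w s := by
    unfold rev
    rw [max_eq_left (tq_le s p)]
    ring
  rw [hv] at hp
  have hvt : s - tq s p ≤ t := tsub_le_self.trans hst
  have h1 : w (s - tq s p) ≤ sp t w := le_sp hL hw hvt
  have h2 := path_low hL hfm hf0 hw
  refine ciSup_le fun q => ?_
  show g (tq t q) + w (tq t q) ≤ _
  rcases le_total (tq t q) s with h3 | h3
  · have h4 := le_ciSup (bdd hL hfm hw) q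
    have h5 : f (tq t q) + w (tq t q) ≤ sp t (fun u => f u + w u) := h4
    have h6 := hgs _ h3
    linarith
  · have hc : Continuous (shf s w) := by
      unfold shf
      exact (hw.comp (continuous_const.add continuous_id)).sub continuous_const
    have h4 : shf s w (tq t q - s) ≤ sp (t - s) (shf s w) :=
      le_sp hL hc (tsub_le_tsub_right (tq_le t q) s)
    have h5 : shf s w (tq t q - s) = w (tq t q) - w s := by
      unfold shf
      rw [add_tsub_cancel_of_le h3]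
    rw [h5] at h4
    have h6 := hgR _ (tq_le t q)
    have h7 := hfm _ (tq_le t q)
    linarith

/-! ### The running suprema of the stopped path and of the continued path -/

lemma cont_stp {x : ℝ≥0 → ℝ} (hx : Continuous x) (s : ℝ≥0) : Continuous (stp s x) :=
  hx.comp (continuous_id.min continuous_const)

lemma cont_cat {x z : ℝ≥0 → ℝ} (hx : Continuous x) (hz : Continuous z) (hz0 : z 0 = 0)
    (s : ℝ≥0) : Continuous (cat s x z) := by
  unfold cat
  refine Continuous.if_le hx ?_ continuous_id continuous_const ?_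
  · exact continuous_const.add (hz.comp (continuous_id.sub continuous_const))
  · intro u hu
    have hu' : u = s := hu
    subst hu'
    simp [hz0]

section
variable {x z : ℝ≥0 → ℝ} {s t : ℝ≥0} {R : ℝ}

lemma stp_le_cat (hL : HL) (hx : Continuous x) (hz : Continuous z) (hz0 : z 0 = 0) (u : ℝ≥0) :
    sp u (stp s x) ≤ sp u (cat s x z) := by
  refine sp_le' fun v hv => ?_
  have h1 : stp s x v = cat s x z (min v s) := by
    unfold stp cat
    rw [if_pos (min_le_right v s)]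
  rw [h1]
  exact le_sp hL (cont_cat hx hz hz0 s) ((min_le_left v s).trans hv)

lemma cat_le_stp (hL : HL) (hx : Continuous x) (hz : Continuous z)
    (hR : 0 < R) (hzR : sp (t - s) z ≤ R) {u : ℝ≥0} (hu : u ≤ t) :
    sp u (cat s x z) ≤ sp u (stp s x) + R := by
  refine sp_le' fun v hv => ?_
  unfold cat
  split_ifs with h
  · have h1 : stp s x v = x v := by
      unfold stp
      rw [min_eq_left h]
    have h2 := le_sp hL (cont_stp hx s) hv
    rw [h1] at h2
    linarith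
  · push Not at h
    have h1 : stp s x v = x s := by
      unfold stp
      rw [min_eq_right h.le]
    have h2 := le_sp hL (cont_stp hx s) hv
    rw [h1] at h2
    have h3 : z (v - s) ≤ sp (t - s) z := le_sp hL hz (tsub_le_tsub_right (hv.trans hu) s)
    linarith

lemma cat_le_stp' (hL : HL) (hx : Continuous x) {u : ℝ≥0} (hu : u ≤ s) :
    sp u (cat s x z) ≤ sp u (stp s x) := by
  refine sp_le' fun v hv => ?_
  have h1 : cat s x z v = stp s x v := by
    unfold stp cat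
    rw [if_pos (hv.trans hu), min_eq_left (hv.trans hu)]
  rw [h1]
  exact le_sp hL (cont_stp hx s) hv

lemma stp_le (hL : HL) (hx : Continuous x) (u : ℝ≥0) : sp u (stp s x) ≤ sp s x := by
  refine sp_le' fun v hv => ?_
  exact le_sp hL hx (min_le_right v s)

lemma stp_nonneg (hL : HL) (hx : Continuous x) (hx0 : x 0 = 0) (u : ℝ≥0) :
    0 ≤ sp u (stp s x) := by
  have h1 : stp s x 0 = 0 := by
    unfold stp
    rw [min_eq_left zero_le, hx0]
  have h2 := le_sp hL (cont_stp hx s) (zero_le (a := u))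
  rw [h1] at h2
  exact h2

end

end Pool.Agent.H358R3.BT
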