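import Pool.Agent.H358R3.BT.Det

/-! Task BT-Up. -/

set_option autoImplicit false

namespace Pool.Agent.H358R3.BT

open MeasureTheory ProbabilityTheory Filter Topology
open scoped ENNReal NNReal
open Pool.Agent.H143R3.BT

universe u v

lemma meas_sp (t : ℝ≥0) : Measurable (sp t) :=
  Measurable.iSup fun p => measurable_pi_apply (tq t p)

/-- the universal constant `E sup_{[0,1]} W` -/
lemma exists_C0 : ∃ C0 : ℝ, ∀ (Ω' : Type v) [MeasurableSpace Ω'] (P' : Measure Ω')
    [IsProbabilityMeasure P'] (W : ℝ≥0 → Ω' → ℝ), IsBM P' W →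
      ∫ ω, sp 1 (fun u => W u ω) ∂P' = C0 := by
  by_cases h : ∃ (Ω' : Type v) (_ : MeasurableSpace Ω') (P' : Measure Ω')
    (_ : IsProbabilityMeasure P') (W : ℝ≥0 → Ω' → ℝ), IsBM P' W
  · obtain ⟨Ω0, m0, P0, hP0, W0, hW0⟩ := h
    refine ⟨∫ ω, sp 1 (fun u => W0 u ω) ∂P0, ?_⟩
    intro Ω' _ P' _ W hW
    have m1 : AEMeasurable (fun ω t => W t ω) P' :=
      (measurable_pi_lambda _ fun t => hW.meas t).aemeasurable
    have m2 : AEMeasurable (fun ω t => W0 t ω) P0 :=
      (measurable_pi_lambda _ fun t => hW0.meas t).aemeasurable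
    have e1 := integral_map (f := sp 1) m1 (meas_sp 1).aestronglyMeasurable
    have e2 := integral_map (f := sp 1) m2 (meas_sp 1).aestronglyMeasurable
    rw [law_unique hW hW0, e2] at e1
    exact e1.symm
  · refine ⟨0, ?_⟩
    intro Ω' _ P' _ W hW
    exact absurd ⟨Ω', _, P', inferInstance, W, hW⟩ h

variable {Ω' : Type v} [MeasurableSpace Ω'] {P' : Measure Ω'} [IsProbabilityMeasure P']
  {W : ℝ≥0 → Ω' → ℝ}

lemma sp_scale (τ : ℝ≥0) (x : ℝ≥0 → ℝ) :
    sp 1 (fun u => (√(τ : ℝ))⁻¹ * x (τ * u)) = (√(τ : ℝ))⁻¹ * sp τ x := by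
  unfold sp
  rw [Real.mul_iSup_of_nonneg (by positivity)]
  congr 1
  funext p
  unfold tq
  rw [one_mul]

lemma EB {C0 : ℝ} (hC0 : ∀ (Ω' : Type v) [MeasurableSpace Ω'] (P' : Measure Ω')
    [IsProbabilityMeasure P'] (W : ℝ≥0 → Ω' → ℝ), IsBM P' W →
      ∫ ω, sp 1 (fun u => W u ω) ∂P' = C0) (hW : IsBM P' W) (τ : ℝ≥0) :
    ∫ ω, sp τ (fun u => W u ω) ∂P' = C0 * √(τ : ℝ) := by
  rcases eq_or_ne τ 0 with rfl | hτ
  · have h1 : ∀ ω, sp 0 (fun u => W u ω) = W 0 ω := by
      intro ω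
      have h2 : ∀ p : ℕ × ℕ, tq 0 p = 0 := fun p => by
        unfold tq
        rw [zero_mul]
      show (⨆ p : ℕ × ℕ, W (tq 0 p) ω) = W 0 ω
      simp_rw [h2]
      exact ciSup_const
    simp only [h1, NNReal.coe_zero, Real.sqrt_zero, mul_zero]
    exact integral_eq_zero_of_ae hW.zero
  · have h1 := hC0 Ω' P' _ (IsBM.scale hW hτ)
    have h3 : ∫ ω, sp 1 (fun u => (√(τ : ℝ))⁻¹ * W (τ * u) ω) ∂P' =
        ∫ ω, (√(τ : ℝ))⁻¹ * sp τ (fun u => W u ω) ∂P' :=
      integral_congr_ae (Eventually.of_forall fun ω => sp_scale τ (fun u => W u ω))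
    rw [h3, integral_const_mul] at h1
    have h2 : 0 < √(τ : ℝ) := Real.sqrt_pos.2 (by exact_mod_cast pos_of_ne_zero hτ)
    rw [← h1]
    field_simp

lemma integrable_sp (hL : HL) (hW : IsBM P' W) {t : ℝ≥0}
    (hi : Integrable (fun ω => sp t (fun s => W s ω)) P') {f : ℝ≥0 → ℝ} {K : ℝ}
    (h0 : ∀ u ≤ t, 0 ≤ f u) (hK : ∀ u ≤ t, f u ≤ K) :
    Integrable (fun ω => sp t (fun u => f u + W u ω)) P' := by
  have hm : Measurable (fun ω => sp t (fun u => f u + W u ω)) :=
    Measurable.iSup fun p => measurable_const.add (hW.meas _)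
  refine Integrable.mono' ((hi.abs).add (integrable_const |K|)) hm.aestronglyMeasurable ?_
  filter_upwards [hW.cont] with ω hω
  have h1 := path_low hL hK h0 hω
  have h2 := path_up hL hK hω
  rw [Real.norm_eq_abs, abs_le]
  have h3 := neg_abs_le (sp t fun s => W s ω)
  have h4 := le_abs_self (sp t fun s => W s ω)
  have h5 := le_abs_self K
  have h6 := abs_nonneg K
  constructor
  · show -(|sp t fun s => W s ω| + |K|) ≤ _
    linarith
  · show _ ≤ (|sp t fun s => W s ω| + |K|)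
    linarith

lemma prob_bound (hI : TaskI.{v}) (hL : HL) {C2 : ℝ} (hC2 : 0 < C2)
    (hR2 : ∀ (Ω' : Type v) [MeasurableSpace Ω'] (P' : Measure Ω')
    [IsProbabilityMeasure P'] (W : ℝ≥0 → Ω' → ℝ), IsBM P' W → ∀ s : ℝ≥0, 0 < s → ∀ r : ℝ, 0 < r →
      P' {ω | sp s (fun u => W u ω) ≤ r} ≤ ENNReal.ofReal (C2 * (r / √(s : ℝ))))
    (hW : IsBM P' W) {s τ : ℝ≥0} (hs : 0 < s) {K : ℝ} (hK : 0 < K)
    (hi : Integrable (fun ω => sp τ (shf s (fun t => W t ω))) P') :
    P' {ω | sp s (rev s (fun t => W t ω)) ≤ K + sp τ (shf s (fun t => W t ω))} ≤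
      ENNReal.ofReal (C2 * ((K + ∫ ω, sp τ (shf s (fun t => W t ω)) ∂P') / √(s : ℝ))) := by
  classical
  let E : Set ((ℝ≥0 → ℝ) × (ℝ≥0 → ℝ)) :=
    {q | (⨆ p : ℕ × ℕ, (q.1 (s - tq s p) - q.1 s)) ≤ K + sp τ q.2}
  have hE : MeasurableSet E := by
    refine measurableSet_le (Measurable.iSup fun p => ?_)
      (measurable_const.add ((meas_sp τ).comp measurable_snd))
    exact ((measurable_pi_apply _).comp measurable_fst).sub
      ((measurable_pi_apply _).comp measurable_fst)
  have hmem : ∀ ω₁ ω₂, ((stp s (fun t => W t ω₁), shf s (fun t => W t ω₂)) ∈ E ↔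
      sp s (rev s (fun t => W t ω₁)) ≤ K + sp τ (shf s (fun t => W t ω₂))) := by
    intro ω₁ ω₂
    have e : sp s (rev s (fun t => W t ω₁)) =
        ⨆ p : ℕ × ℕ, (stp s (fun t => W t ω₁) (s - tq s p) - stp s (fun t => W t ω₁) s) := by
      unfold sp
      congr 1
      funext p
      unfold rev stp
      rw [max_eq_left (tq_le s p), min_eq_left (tsub_le_self), min_self]
      ring
    rw [e]
    rfl
  have hΦ : Measurable (E.indicator (fun _ => (1 : ℝ≥0∞))) := measurable_const.indicator hE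
  have hTI := (hI Ω' P' W hW s).2 _ hΦ
  have mW : Measurable (fun ω t => W t ω) := measurable_pi_lambda _ fun t => hW.meas t
  have m1 : Measurable (fun ω => stp s (fun t => W t ω)) :=
    measurable_pi_lambda _ fun t => hW.meas _
  have m2 : Measurable (fun ω => shf s (fun t => W t ω)) :=
    measurable_pi_lambda _ fun t => (hW.meas _).sub (hW.meas _)
  have hpair : Measurable (fun q : Ω' × Ω' =>
      (stp s (fun t => W t q.1), shf s (fun t => W t q.2))) :=
    (m1.comp measurable_fst).prodMk (m2.comp measurable_snd)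
  have hleft : P' {ω | sp s (rev s (fun t => W t ω)) ≤ K + sp τ (shf s (fun t => W t ω))} =
      ∫⁻ ω, E.indicator (fun _ => (1 : ℝ≥0∞))
        (stp s (fun t => W t ω), shf s (fun t => W t ω)) ∂P' := by
    have hset : {ω | sp s (rev s (fun t => W t ω)) ≤ K + sp τ (shf s (fun t => W t ω))} =
        (fun ω => (stp s (fun t => W t ω), shf s (fun t => W t ω))) ⁻¹' E := by
      ext ω
      exact (hmem ω ω).symm
    rw [hset, ← lintegral_indicator_one ((m1.prodMk m2) hE)]
    rfl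
  rw [hleft, hTI, lintegral_lintegral_swap]
  swap
  · exact (hΦ.comp hpair).aemeasurable
  have hB0 : ∀ᵐ ω ∂P', 0 ≤ sp τ (shf s (fun t => W t ω)) := by
    filter_upwards [hW.cont] with ω hω
    have hc : Continuous (shf s (fun t => W t ω)) := by
      unfold shf
      exact (hω.comp (continuous_const.add continuous_id)).sub continuous_const
    have h1 := le_sp hL hc (zero_le (a := τ))
    have h2 : shf s (fun t => W t ω) 0 = 0 := by
      unfold shf
      simp
    rw [h2] at h1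
    exact h1
  have hinner : ∀ᵐ ω₂ ∂P', ∫⁻ ω₁, E.indicator (fun _ => (1 : ℝ≥0∞))
        (stp s (fun t => W t ω₁), shf s (fun t => W t ω₂)) ∂P' ≤
        ENNReal.ofReal (C2 * ((K + sp τ (shf s (fun t => W t ω₂))) / √(s : ℝ))) := by
    filter_upwards [hB0] with ω₂ h0
    have h1 := hR2 Ω' P' _ (IsBM.rev hW s) s hs (K + sp τ (shf s (fun t => W t ω₂)))
      (by linarith)
    refine le_trans (le_of_eq ?_) h1
    have hset : {ω₁ | sp s (fun u => rev s (fun t => W t ω₁) u) ≤
        K + sp τ (shf s (fun t => W t ω₂))} =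
        (fun ω₁ => (stp s (fun t => W t ω₁), shf s (fun t => W t ω₂))) ⁻¹' E := by
      ext ω
      exact (hmem ω ω₂).symm
    rw [hset, ← lintegral_indicator_one ((m1.prodMk measurable_const) hE)]
    rfl
  refine (lintegral_mono_ae hinner).trans ?_
  have hint : Integrable (fun ω => C2 * ((K + sp τ (shf s (fun t => W t ω))) / √(s : ℝ))) P' :=
    (((integrable_const K).add hi).div_const _).const_mul _
  have hnn : 0 ≤ᵐ[P'] (fun ω => C2 * ((K + sp τ (shf s (fun t => W t ω))) / √(s : ℝ))) := by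
    filter_upwards [hB0] with ω h0
    exact mul_nonneg hC2.le (div_nonneg (by linarith) (Real.sqrt_nonneg _))
  rw [← ofReal_integral_eq_lintegral_ofReal hint hnn]
  refine ENNReal.ofReal_le_ofReal (le_of_eq ?_)
  rw [integral_const_mul, integral_div, integral_add (integrable_const K) hi, integral_const]
  simp

end Pool.Agent.H358R3.BT
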