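import Pool.Agent.H358R3.BT.Up

/-! Task BT-Up, final. -/

set_option autoImplicit false

namespace Pool.Agent.H358R3.BT

open MeasureTheory ProbabilityTheory Filter Topology
open scoped ENNReal NNReal
open Pool.Agent.H143R3.BT

universe u v

variable {Ω' : Type v} [MeasurableSpace Ω'] {P' : Measure Ω'} [IsProbabilityMeasure P']
  {W : ℝ≥0 → Ω' → ℝ}

lemma side (hI : TaskI.{v}) (hL : HL) {C2 : ℝ} (hC2 : 0 < C2)
    (hR2 : ∀ (Ω' : Type v) [MeasurableSpace Ω'] (P' : Measure Ω')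
    [IsProbabilityMeasure P'] (W : ℝ≥0 → Ω' → ℝ), IsBM P' W → ∀ s : ℝ≥0, 0 < s → ∀ r : ℝ, 0 < r →
      P' {ω | sp s (fun u => W u ω) ≤ r} ≤ ENNReal.ofReal (C2 * (r / √(s : ℝ))))
    {C0 : ℝ} (hC0 : ∀ (Ω' : Type v) [MeasurableSpace Ω'] (P' : Measure Ω')
    [IsProbabilityMeasure P'] (W : ℝ≥0 → Ω' → ℝ), IsBM P' W →
      ∫ ω, sp 1 (fun u => W u ω) ∂P' = C0)
    (hInt : ∀ (Ω' : Type v) [MeasurableSpace Ω'] (P' : Measure Ω') [IsProbabilityMeasure P']
      (W : ℝ≥0 → Ω' → ℝ), IsBM P' W → ∀ t : ℝ≥0, Integrable (fun ω => sp t (fun s => W s ω)) P')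
    (hW : IsBM P' W) {t s : ℝ≥0} {x z : ℝ≥0 → ℝ} {R : ℝ} (hst : s ≤ t) (hx : Continuous x)
    (hx0 : x 0 = 0) (hz : Continuous z) (hz0 : z 0 = 0) (hR : 0 < R) (hzR : sp (t - s) z ≤ R) :
    U P' W t (fun u => sp u (stp s x)) ≤ U P' W t (fun u => sp u (cat s x z)) ∧
    U P' W t (fun u => sp u (cat s x z)) ≤ U P' W t (fun u => sp u (stp s x)) + R ∧
    (0 < s → U P' W t (fun u => sp u (cat s x z)) ≤ U P' W t (fun u => sp u (stp s x)) +
      R * (C2 * ((R + sp s x + |C0| * √((t : ℝ) - s)) / √(s : ℝ)))) := by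
  set f : ℝ≥0 → ℝ := fun u => sp u (stp s x) with hf
  set g : ℝ≥0 → ℝ := fun u => sp u (cat s x z) with hg
  set m : ℝ := sp s x with hm
  have hm0 : 0 ≤ m := by
    have := le_sp hL hx (zero_le (a := s))
    rw [hx0] at this
    exact this
  have hf0 : ∀ u ≤ t, 0 ≤ f u := fun u _ => stp_nonneg hL hx hx0 u
  have hfm : ∀ u ≤ t, f u ≤ m := fun u _ => stp_le hL hx u
  have hfg : ∀ u ≤ t, f u ≤ g u := fun u _ => stp_le_cat hL hx hz hz0 u
  have hgR : ∀ u ≤ t, g u ≤ f u + R := fun u hu => cat_le_stp hL hx hz hR hzR hu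
  have hgs : ∀ u ≤ s, g u ≤ f u := fun u hu => cat_le_stp' hL hx hu
  have hg0 : ∀ u ≤ t, 0 ≤ g u := fun u hu => (hf0 u hu).trans (hfg u hu)
  have hgm : ∀ u ≤ t, g u ≤ m + R := fun u hu => (hgR u hu).trans (by linarith [hfm u hu])
  have hi := hInt Ω' P' W hW t
  have iF : Integrable (fun ω => sp t (fun u => f u + W u ω)) P' := integrable_sp hL hW hi hf0 hfm
  have iG : Integrable (fun ω => sp t (fun u => g u + W u ω)) P' := integrable_sp hL hW hi hg0 hgm
  have h1 : U P' W t f ≤ U P' W t g := by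
    unfold U
    refine integral_mono_ae iF iG ?_
    filter_upwards [hW.cont] with ω hω
    exact path_mono hL hgm hfg hω
  have h2 : U P' W t g ≤ U P' W t f + R := by
    have h3 : U P' W t f + R = ∫ ω, (sp t (fun u => f u + W u ω) + R) ∂P' := by
      rw [integral_add iF (integrable_const R), integral_const]
      simp [U]
    rw [h3]
    unfold U
    refine integral_mono_ae iG (iF.add (integrable_const R)) ?_
    filter_upwards [hW.cont] with ω hω
    exact path_add hL hfm hgR hω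
  refine ⟨h1, h2, fun hs => ?_⟩
  have hV := (hI Ω' P' W hW s).1
  have hiB := hInt Ω' P' _ hV (t - s)
  have hpb := prob_bound (K := R + m) (τ := t - s) hI hL hC2 hR2 hW hs (by linarith) hiB
  have hEB : ∫ ω, sp (t - s) (shf s (fun t => W t ω)) ∂P' = C0 * √((t - s : ℝ≥0) : ℝ) :=
    EB hC0 hV (t - s)
  rw [hEB, NNReal.coe_sub hst] at hpb
  set A : Set Ω' := {ω | sp s (rev s (fun t => W t ω)) ≤
    R + m + sp (t - s) (shf s (fun t => W t ω))} with hA
  have mA : MeasurableSet A := by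
    refine measurableSet_le ?_ (measurable_const.add ?_)
    · exact (meas_sp s).comp (measurable_pi_lambda _ fun v =>
        ((hW.meas _).sub (hW.meas _)).add ((hW.meas _).sub (hW.meas _)))
    · exact (meas_sp _).comp (measurable_pi_lambda _ fun v => (hW.meas _).sub (hW.meas _))
  have h4 : U P' W t g ≤ ∫ ω, (sp t (fun u => f u + W u ω) + A.indicator (fun _ => R) ω) ∂P' := by
    unfold U
    refine integral_mono_ae iG (iF.add ((integrable_const R).indicator mA)) ?_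
    filter_upwards [hW.cont] with ω hω
    by_cases hωA : ω ∈ A
    · have h5 := path_add hL hfm hgR hω
      show _ ≤ _ + A.indicator (fun _ => R) ω
      rw [Set.indicator_of_mem hωA]
      exact h5
    · have h5 : R + m + sp (t - s) (shf s (fun t => W t ω)) < sp s (rev s (fun t => W t ω)) :=
        not_le.1 hωA
      have h6 := path_key hL hst hf0 hfm hgR hgs hω h5
      show _ ≤ _ + A.indicator (fun _ => R) ω
      rw [Set.indicator_of_notMem hωA, add_zero]
      exact h6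
  rw [integral_add iF ((integrable_const R).indicator mA), integral_indicator_const _ mA] at h4
  have h7 : P'.real A ≤ C2 * ((R + m + |C0| * √((t : ℝ) - s)) / √(s : ℝ)) := by
    refine ENNReal.toReal_le_of_le_ofReal ?_ (hpb.trans (ENNReal.ofReal_le_ofReal ?_))
    · positivity
    · have h8 : C0 * √((t : ℝ) - s) ≤ |C0| * √((t : ℝ) - s) :=
        mul_le_mul_of_nonneg_right (le_abs_self _) (Real.sqrt_nonneg _)
      gcongr
  have h9 : P'.real A • R ≤ R * (C2 * ((R + m + |C0| * √((t : ℝ) - s)) / √(s : ℝ))) := by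
    rw [smul_eq_mul, mul_comm]
    exact mul_le_mul_of_nonneg_left h7 hR.le
  calc U P' W t g ≤ U P' W t f + P'.real A • R := h4
    _ ≤ _ := by linarith

theorem taskUp : TaskUp.{v} := by
  intro hM hI hR2'
  obtain ⟨C2, hC2, hR2⟩ := hR2'
  obtain ⟨C0, hC0⟩ := exists_C0.{v}
  refine ⟨4 * C2 * (1 + |C0|), by positivity, ?_⟩
  intro Ω' _ P' _ W hW t s x z R ht hst hx hx0 hz hz0 hR hn
  have hL : HL := fun t x hx => (hM Ω' P' W hW t).2.2.2.2 x hx
  have hInt : ∀ (Ω' : Type v) [MeasurableSpace Ω'] (P' : Measure Ω') [IsProbabilityMeasure P']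
      (W : ℝ≥0 → Ω' → ℝ), IsBM P' W → ∀ t : ℝ≥0, Integrable (fun ω => sp t (fun s => W s ω)) P' :=
    fun Ω' _ P' _ W hW t => (hM Ω' P' W hW t).2.2.2.1
  have hn1 : sp (t - s) z ≤ R := (le_max_left _ _).trans hn
  have hn2 : sp (t - s) (fun u => -z u) ≤ R := (le_max_right _ _).trans hn
  obtain ⟨a1, a2, a3⟩ := side hI hL hC2 hR2 hC0 hInt hW hst hx hx0 hz hz0 hR hn1
  obtain ⟨b1, b2, b3⟩ := side hI hL hC2 hR2 hC0 hInt hW hst hx.neg (x := fun u => -x u)
    (by simp [hx0]) hz.neg (z := fun u => -z u) (by simp [hz0]) hR hn2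
  have e1 : H P' W t (stp s x) = U P' W t (fun u => sp u (stp s x)) +
      U P' W t (fun u => sp u (stp s (fun u => -x u))) := rfl
  have e2 : H P' W t (cat s x z) = U P' W t (fun u => sp u (cat s x z)) +
      U P' W t (fun u => sp u (cat s (fun u => -x u) (fun u => -z u))) := by
    have e3 : (fun u => -(cat s x z) u) = cat s (fun u => -x u) (fun u => -z u) := by
      funext u
      unfold cat
      split_ifs
      · rfl
      · ring
    unfold H
    rw [e3]
  rw [e1, e2]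
  refine ⟨by linarith, by linarith, fun hts => ?_⟩
  have hs : 0 < s := lt_of_lt_of_le (by positivity) hts
  have a4 := a3 hs
  have b4 := b3 hs
  have n1 : sp s x ≤ nrm s x := le_max_left _ _
  have n2 : sp s (fun u => -x u) ≤ nrm s x := le_max_right _ _
  have n0 : 0 ≤ sp s x := by
    have := le_sp hL hx (zero_le (a := s))
    rw [hx0] at this
    exact this
  have hq : 0 ≤ √((t : ℝ) - s) := Real.sqrt_nonneg _
  have hst' : 0 < √(t : ℝ) := Real.sqrt_pos.2 (by exact_mod_cast ht)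
  have hss' : 0 < √(s : ℝ) := Real.sqrt_pos.2 (by exact_mod_cast hs)
  have hts' : √(t : ℝ) ≤ 2 * √(s : ℝ) := by
    have h1 : (t : ℝ) / 2 ≤ s := by exact_mod_cast hts
    have h2 : (t : ℝ) ≤ (2 * √(s : ℝ)) ^ 2 := by
      rw [mul_pow, Real.sq_sqrt (NNReal.coe_nonneg s)]
      have : (0 : ℝ) ≤ s := NNReal.coe_nonneg s
      linarith
    calc √(t : ℝ) ≤ √((2 * √(s : ℝ)) ^ 2) := Real.sqrt_le_sqrt h2
      _ = 2 * √(s : ℝ) := Real.sqrt_sq (by positivity)
  have key : ∀ y : ℝ, y ≤ nrm s x → R * (C2 * ((R + y + |C0| * √((t : ℝ) - s)) / √(s : ℝ))) ≤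
      2 * C2 * (1 + |C0|) * (R * (R + nrm s x + √((t : ℝ) - s)) / √(t : ℝ)) := by
    intro y hy
    have hc : 0 ≤ |C0| := abs_nonneg _
    have hnn : 0 ≤ nrm s x := n0.trans n1
    have h1 : R + y + |C0| * √((t : ℝ) - s) ≤ (1 + |C0|) * (R + nrm s x + √((t : ℝ) - s)) := by
      nlinarith [mul_nonneg hc hR.le, mul_nonneg hc hnn]
    have h2 : 0 ≤ (1 + |C0|) * (R + nrm s x + √((t : ℝ) - s)) := by positivity
    have h3 : (R + y + |C0| * √((t : ℝ) - s)) / √(s : ℝ) ≤
        (1 + |C0|) * (R + nrm s x + √((t : ℝ) - s)) * (2 / √(t : ℝ)) := by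
      have h4 : 1 / √(s : ℝ) ≤ 2 / √(t : ℝ) := by
        rw [div_le_div_iff₀ hss' hst']
        linarith
      calc (R + y + |C0| * √((t : ℝ) - s)) / √(s : ℝ)
          ≤ (1 + |C0|) * (R + nrm s x + √((t : ℝ) - s)) / √(s : ℝ) :=
            div_le_div_of_nonneg_right h1 hss'.le
        _ = (1 + |C0|) * (R + nrm s x + √((t : ℝ) - s)) * (1 / √(s : ℝ)) := by ring
        _ ≤ _ := mul_le_mul_of_nonneg_left h4 h2
    calc R * (C2 * ((R + y + |C0| * √((t : ℝ) - s)) / √(s : ℝ)))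
        ≤ R * (C2 * ((1 + |C0|) * (R + nrm s x + √((t : ℝ) - s)) * (2 / √(t : ℝ)))) := by
          gcongr
      _ = _ := by ring
  have k1 := key _ n1
  have k2 := key _ n2
  have e5 : 4 * C2 * (1 + |C0|) * (R * (R + nrm s x + √((t : ℝ) - s)) / √(t : ℝ)) =
      2 * C2 * (1 + |C0|) * (R * (R + nrm s x + √((t : ℝ) - s)) / √(t : ℝ)) +
      2 * C2 * (1 + |C0|) * (R * (R + nrm s x + √((t : ℝ) - s)) / √(t : ℝ)) := by ring
  rw [e5]
  linarith

end Pool.Agent.H358R3.BT
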